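import Mathlib
import Pool.Agent.Q166.ShadeRec

/-!
# The shaded patterns 12-4-3 and 34-1-2 are des-Wilf equivalent

A shaded pattern is a classical pattern of length 4 whose first two letters have to be adjacent
in the permutation. The definitions `Q166.Shade.des` (number of descents) and
`Q166.Shade.Contains` (containment of a shaded pattern) are in `Pool/Agent/Q166/ShadePre.lean`.
-/

set_option autoImplicit false

namespace Pool.Agent.Results.MP_668c10_co.DesWilf

open Q166.Shade Finset

/-! ### the descent polynomials -/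

open Classical in
/-- the descent polynomial `F_n(Π; q)` of the permutations of `n` letters avoiding all shaded
patterns in `P` -/
noncomputable def F (P : Set (Fin 4 → ℕ)) (n : ℕ) : Polynomial ℤ :=
  ∑ σ ∈ (Finset.univ : Finset (Equiv.Perm (Fin n))).filter (fun σ => ∀ p ∈ P, ¬ Contains p σ),
    Polynomial.X ^ des σ

/-- des-Wilf equivalence -/
def DesWilfEquivalent (P P' : Set (Fin 4 → ℕ)) : Prop := ∀ n : ℕ, 1 ≤ n → F P n = F P' n

/-! ### closed forms for the bad states -/

variable {R : Type*} [CommRing R] {q : R}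

theorem pascal (d : ℕ) (F : ℕ → R) :
    ∑ L ∈ range (d + 1 + 1), ((d + 1).choose L : R) * q ^ L * F L =
      ∑ L ∈ range (d + 1), (d.choose L : R) * q ^ L * F L +
        q * ∑ L ∈ range (d + 1), (d.choose L : R) * q ^ L * F (L + 1) := by
  rw [Finset.sum_range_succ' _ (d + 1), Finset.mul_sum]
  have h1 : ∑ L ∈ range (d + 1), (d.choose L : R) * q ^ L * F L =
      ∑ L ∈ range (d + 1), (d.choose (L + 1) : R) * q ^ (L + 1) * F (L + 1) + F 0 := by
    rw [Finset.sum_range_succ' _ d, Finset.sum_range_succ _ d]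
    simp
  rw [h1, add_right_comm, ← Finset.sum_add_distrib]
  congr 1
  · apply Finset.sum_congr rfl
    intro L _
    rw [Nat.choose_succ_succ]
    push_cast
    ring
  · simp

theorem U1_closed (k d : ℕ) : ∀ N c : ℕ, c + d = N + 1 → k + 1 < c →
    G1 q N k + q * S1 q N (k + 1) c =
      ∑ L ∈ range (d + 1), (d.choose L : R) * q ^ L * G1 q (N - L) k := by
  induction d with
  | zero =>
    intro N c h1 h2
    rw [S1_top N (k + 1) c (by omega)]
    simp
  | succ d ih =>
    intro N c h1 h2
    obtain ⟨N', rfl⟩ : ∃ N', N = N' + 1 := ⟨N - 1, by omega⟩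
    rw [pascal d (fun L => G1 q (N' + 1 - L) k)]
    rw [← ih (N' + 1) (c + 1) (by omega) (by omega)]
    have h3 : ∑ L ∈ range (d + 1), (d.choose L : R) * q ^ L * G1 q (N' + 1 - (L + 1)) k =
        ∑ L ∈ range (d + 1), (d.choose L : R) * q ^ L * G1 q (N' - L) k := by
      apply Finset.sum_congr rfl
      intro L _
      rw [Nat.add_sub_add_right]
    rw [h3, ← ih N' c (by omega) h2, S1_succ N' k c h2 (by omega)]
    ring

theorem V2_closed (k d : ℕ) : ∀ N : ℕ, k + 2 + d ≤ N + 1 →
    G2 q N k + S2 q N (k + 1) (k + 2 + d) =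
      ∑ L ∈ range (d + 1), (d.choose L : R) * q ^ L * G2 q (N - L) k := by
  induction d with
  | zero =>
    intro N h1
    rw [Nat.add_zero, S2_bot N (k + 1)]
    simp
  | succ d ih =>
    intro N h1
    obtain ⟨N', rfl⟩ : ∃ N', N = N' + 1 := ⟨N - 1, by omega⟩
    rw [pascal d (fun L => G2 q (N' + 1 - L) k)]
    rw [← ih (N' + 1) (by omega)]
    have h3 : ∑ L ∈ range (d + 1), (d.choose L : R) * q ^ L * G2 q (N' + 1 - (L + 1)) k =
        ∑ L ∈ range (d + 1), (d.choose L : R) * q ^ L * G2 q (N' - L) k := by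
      apply Finset.sum_congr rfl
      intro L _
      rw [Nat.add_sub_add_right]
    rw [h3, ← ih N' (by omega), ← Nat.add_assoc, S2_succ N' k (k + 2 + d) (by omega) (by omega)]
    ring

/-! ### the two systems in the coordinates `(j, h)` -/

theorem sys1 (j h : ℕ) :
    G1 q (j + 1 + (h + 1)) (j + 1) = G1 q (j + 2 + h) (j + 2) + (q - 1) * G1 q (j + 1 + h) (j + 1)
      + ∑ L ∈ range (h + 1), (h.choose L : R) * q ^ L * G1 q (j + (h + 1 - L)) j := by
  have h1 := G1_diff (q := q) (j + 1 + h) j (by omega)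
  have h2 := U1_closed (q := q) j h (j + 1 + h) (j + 2) (by omega) (by omega)
  have h3 : ∑ L ∈ range (h + 1), (h.choose L : R) * q ^ L * G1 q (j + (h + 1 - L)) j =
      ∑ L ∈ range (h + 1), (h.choose L : R) * q ^ L * G1 q (j + 1 + h - L) j := by
    apply Finset.sum_congr rfl
    intro L hL
    rw [Finset.mem_range] at hL
    rw [show j + (h + 1 - L) = j + 1 + h - L by omega]
  rw [h3, ← h2, show j + 1 + (h + 1) = j + 1 + h + 1 by omega, h1, S1_low,
    show j + 2 + h = j + 1 + h + 1 by omega]
  ring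

theorem sys1_zero (h : ℕ) :
    G1 q (0 + (h + 1)) 0 = G1 q (1 + h) 1 + (q - 1) * G1 q (0 + h) 0 := by
  have h1 := G1_diff0 (q := q) h
  rw [show 0 + (h + 1) = h + 1 by omega, h1, show 1 + h = h + 1 by omega, Nat.zero_add]

theorem sys2 (j h : ℕ) :
    G2 q (j + 1 + (h + 1)) (j + 1) + (1 - q) * G2 q (j + (h + 1)) j =
      G2 q (j + 2 + h) (j + 2) + (1 - q) * G2 q (j + 1 + h) (j + 1)
      + ∑ L ∈ range (h + 1), (h.choose L : R) * q ^ L * G2 q (j + (h + 1 - L)) j := by
  have h1 := G2_diff (q := q) (j + 1 + h) j (by omega)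
  have h2 := V2_closed (q := q) j h (j + 1 + h) (by omega)
  have h3 : ∑ L ∈ range (h + 1), (h.choose L : R) * q ^ L * G2 q (j + (h + 1 - L)) j =
      ∑ L ∈ range (h + 1), (h.choose L : R) * q ^ L * G2 q (j + 1 + h - L) j := by
    apply Finset.sum_congr rfl
    intro L hL
    rw [Finset.mem_range] at hL
    rw [show j + (h + 1 - L) = j + 1 + h - L by omega]
  rw [h3, ← h2, show j + 1 + (h + 1) = j + 1 + h + 1 by omega, h1,
    show j + (h + 1) = j + 1 + h by omega, show j + 2 + h = j + 1 + h + 1 by omega]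
  ring

theorem sys2_zero (h : ℕ) :
    G2 q (0 + (h + 1)) 0 = G2 q (1 + h) 1 + (1 - q) * G2 q (0 + h) 0 := by
  have h1 := G2_diff0 (q := q) h
  rw [show 0 + (h + 1) = h + 1 by omega, h1, show 1 + h = h + 1 by omega, Nat.zero_add]

/-! ### the transfer operator -/

/-- `u ↦ (i ↦ u (i+1) + (1-q) u i)` -/
def D (q : R) : (ℕ → R) →ₗ[R] (ℕ → R) where
  toFun u := fun i => u (i + 1) + (1 - q) * u i
  map_add' u v := by funext i; simp only [Pi.add_apply]; ring
  map_smul' c u := by
    funext i
    simp only [Pi.smul_apply, smul_eq_mul, RingHom.id_apply]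
    ring

theorem D_apply (u : ℕ → R) (i : ℕ) : D q u i = u (i + 1) + (1 - q) * u i := rfl

/-- the data of system 2 -/
noncomputable def gam (q : R) (h : ℕ) : ℕ → R
  | 0 => if h = 0 then 1 else 0
  | i + 1 => q * G2 q (i + h) i

theorem gam_zero : gam q 0 = fun i => q ^ i := by
  funext i
  cases i with
  | zero => simp [gam]
  | succ i =>
    show q * G2 q (i + 0) i = q ^ (i + 1)
    rw [Nat.add_zero, G2_top, pow_succ']

theorem D_gam_zero : D q (gam q 0) = gam q 0 := by
  rw [gam_zero]
  funext i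
  rw [D_apply]
  ring

theorem D_gam_succ (h : ℕ) :
    D q (gam q (h + 1)) = (D q) ((D q) (gam q h)) + (q - 1) • (D q) (gam q h) +
      ∑ L ∈ range (h + 1), ((h.choose L : R) * q ^ L) • gam q (h + 1 - L) := by
  funext i
  simp only [Pi.add_apply, Pi.smul_apply, Finset.sum_apply, smul_eq_mul, D_apply]
  cases i with
  | zero =>
    have h0 : ∑ L ∈ range (h + 1), ((h.choose L : R) * q ^ L) * gam q (h + 1 - L) 0 = 0 := by
      apply Finset.sum_eq_zero
      intro L hL
      rw [Finset.mem_range] at hL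
      have : gam q (h + 1 - L) 0 = 0 := by
        show (if h + 1 - L = 0 then (1 : R) else 0) = 0
        rw [if_neg (by omega)]
      rw [this, mul_zero]
    rw [h0]
    have e1 : gam q (h + 1) (0 + 1) = q * G2 q (0 + (h + 1)) 0 := rfl
    have e2 : gam q (h + 1) 0 = 0 := rfl
    have e3 : gam q h (0 + 1 + 1) = q * G2 q (1 + h) 1 := rfl
    have e4 : gam q h (0 + 1) = q * G2 q (0 + h) 0 := rfl
    rw [e1, e2, e3, e4, sys2_zero]
    ring
  | succ j =>
    have h0 : ∑ L ∈ range (h + 1), ((h.choose L : R) * q ^ L) * gam q (h + 1 - L) (j + 1) =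
        q * ∑ L ∈ range (h + 1), (h.choose L : R) * q ^ L * G2 q (j + (h + 1 - L)) j := by
      rw [Finset.mul_sum]
      apply Finset.sum_congr rfl
      intro L _
      have : gam q (h + 1 - L) (j + 1) = q * G2 q (j + (h + 1 - L)) j := rfl
      rw [this]
      ring
    rw [h0]
    have e1 : gam q (h + 1) (j + 1 + 1) = q * G2 q (j + 1 + (h + 1)) (j + 1) := rfl
    have e2 : gam q (h + 1) (j + 1) = q * G2 q (j + (h + 1)) j := rfl
    have e3 : gam q h (j + 1 + 1 + 1) = q * G2 q (j + 2 + h) (j + 2) := rfl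
    have e4 : gam q h (j + 1 + 1) = q * G2 q (j + 1 + h) (j + 1) := rfl
    have e5 : gam q h (j + 1) = q * G2 q (j + h) j := rfl
    rw [e1, e2, e3, e4, e5]
    have := sys2 (q := q) j h
    linear_combination q * this

theorem Dpow_gam_succ (h k : ℕ) :
    ((D q) ^ (k + 1)) (gam q (h + 1)) =
      ((D q) ^ (k + 2)) (gam q h) + (q - 1) • ((D q) ^ (k + 1)) (gam q h) +
      ∑ L ∈ range (h + 1), ((h.choose L : R) * q ^ L) • ((D q) ^ k) (gam q (h + 1 - L)) := by
  have h1 : ((D q) ^ (k + 1)) (gam q (h + 1)) = ((D q) ^ k) (D q (gam q (h + 1))) := by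
    rw [pow_succ, Module.End.mul_apply]
  have h2 : ((D q) ^ (k + 2)) (gam q h) = ((D q) ^ k) ((D q) ((D q) (gam q h))) := by
    rw [pow_add, pow_two, Module.End.mul_apply, Module.End.mul_apply]
  have h3 : ((D q) ^ (k + 1)) (gam q h) = ((D q) ^ k) (D q (gam q h)) := by
    rw [pow_succ, Module.End.mul_apply]
  rw [h1, h2, h3, D_gam_succ, map_add, map_add, map_smul, map_sum]
  congr 1
  apply Finset.sum_congr rfl
  intro L _
  rw [map_smul]

theorem Dpow_gam_zero (k : ℕ) : ((D q) ^ k) (gam q 0) = gam q 0 := by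
  induction k with
  | zero => simp
  | succ k ih => rw [pow_succ, Module.End.mul_apply, D_gam_zero, ih]

/-- the intertwining identity -/
theorem main_identity : ∀ s h j : ℕ, j + h = s →
    G1 q (j + h) j = ((D q) ^ (j + 1)) (gam q h) 0 := by
  intro s
  induction s using Nat.strong_induction_on with
  | _ s ihs =>
    intro h
    induction h with
    | zero =>
      intro j _
      rw [Dpow_gam_zero, Nat.add_zero, G1_top]
      rfl
    | succ h ihh =>
      intro j hj
      rw [Dpow_gam_succ]
      simp only [Pi.add_apply, Pi.smul_apply, Finset.sum_apply, smul_eq_mul]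
      rw [← ihh (j + 1) (by omega), ← ihs (j + h) (by omega) h j rfl]
      cases j with
      | zero =>
        have h0 : ∑ L ∈ range (h + 1), ((h.choose L : R) * q ^ L) *
            ((D q) ^ 0) (gam q (h + 1 - L)) 0 = 0 := by
          apply Finset.sum_eq_zero
          intro L hL
          rw [Finset.mem_range] at hL
          have : gam q (h + 1 - L) 0 = 0 := by
            show (if h + 1 - L = 0 then (1 : R) else 0) = 0
            rw [if_neg (by omega)]
          rw [pow_zero, Module.End.one_apply, this, mul_zero]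
        rw [h0, sys1_zero, add_zero]
      | succ j =>
        rw [sys1]
        congr 1
        apply Finset.sum_congr rfl
        intro L hL
        rw [Finset.mem_range] at hL
        rw [ihs (j + (h + 1 - L)) (by omega) (h + 1 - L) j rfl]

theorem totals (N : ℕ) : q * E1 q N (fun _ _ => 1) = q * E2 q N (fun _ _ => 1) := by
  have h1 := main_identity (q := q) (0 + (N + 1)) (N + 1) 0 rfl
  rw [zero_add, zero_add, pow_one, D_apply] at h1
  have e1 : gam q (N + 1) (0 + 1) = q * G2 q (0 + (N + 1)) 0 := rfl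
  have e2 : gam q (N + 1) 0 = 0 := rfl
  rw [e1, e2, mul_zero, add_zero, zero_add, G1_succ N 0 (by omega), G2_succ N 0 (by omega)] at h1
  have h2 : E1 q N (fun b m => if 0 ≤ m then (if 0 ≤ b then q else if b ≤ m then 1 else 0)
      else 0) = q * E1 q N (fun _ _ => 1) := by
    rw [← E1_mul]
    apply E1_congr
    intro b m _ _ _
    simp
  have h3 : E2 q N (fun b m => if 0 ≤ m then (if b < 0 then q else 1) else 0) =
      E2 q N (fun _ _ => 1) := by
    apply E2_congr
    intro b m _ _ _
    simp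
  rw [h2, h3] at h1
  exact h1

/-! ### back to permutations -/

theorem F_3412 (N : ℕ) : F {![3, 4, 1, 2]} (N + 1) = E2 Polynomial.X N (fun _ _ => 1) := by
  classical
  unfold F E2
  rw [Finset.sum_filter]
  apply Finset.sum_congr rfl
  intro σ _
  have h : (∀ p ∈ ({![3, 4, 1, 2]} : Set (Fin 4 → ℕ)), ¬ Contains p σ) ↔ Av2 σ := by
    simp only [Set.mem_singleton_iff, forall_eq]
    rw [contains_3412, not_not]
  by_cases hA : Av2 σ
  · rw [if_pos (h.mpr hA), if_pos hA, mul_one]
  · rw [if_neg (fun h' => hA (h.mp h')), if_neg hA]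

theorem F_1243 (N : ℕ) : F {![1, 2, 4, 3]} (N + 1) = E1 Polynomial.X N (fun _ _ => 1) := by
  classical
  unfold F E1
  rw [Finset.sum_filter]
  have hinv : Function.Bijective (fun σ : Equiv.Perm (Fin (N + 1)) => σ.trans Fin.revPerm) := by
    apply Function.Involutive.bijective
    intro σ
    apply Equiv.ext
    intro i
    simp
  symm
  rw [← hinv.sum_comp]
  symm
  apply Finset.sum_congr rfl
  intro σ _
  have h : (∀ p ∈ ({![1, 2, 4, 3]} : Set (Fin 4 → ℕ)), ¬ Contains p σ) ↔
      Av1 (σ.trans Fin.revPerm) := by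
    simp only [Set.mem_singleton_iff, forall_eq]
    rw [contains_1243, not_not]
  by_cases hA : Av1 (σ.trans Fin.revPerm)
  · rw [if_pos (h.mpr hA), if_pos hA, mul_one, des_compl]
  · rw [if_neg (fun h' => hA (h.mp h')), if_neg hA]

/-- **Q1.** The shaded patterns `1243` and `3412` (first two letters adjacent) are des-Wilf
equivalent. -/
theorem result : DesWilfEquivalent {![1, 2, 4, 3]} {![3, 4, 1, 2]} := by
  intro n hn
  obtain ⟨N, rfl⟩ : ∃ N, n = N + 1 := ⟨n - 1, by omega⟩
  rw [F_3412, F_1243]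
  exact mul_left_cancel₀ Polynomial.X_ne_zero (totals N)

end Pool.Agent.Results.MP_668c10_co.DesWilf
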